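import Mathlib
import Pool.Agent.H36PDN.Main
import Pool.Agent.H36Top.Inter
import Pool.Agent.H9DimN.Wide

/-!
Nilpotent subgroups of automatic groups with Poincaré duality in dimension `n ≥ 4`: commutator subgroups
of nilpotent groups meet torsion-free nilpotent groups of Hirsch length `n - 1` trivially. For `n = 4`
all nilpotent subgroups are virtually abelian.
-/

set_option autoImplicit false

open Pool.Agent.AutDim3 Pool.Agent.H36PDN Pool.Agent.H9DimN Pool.Agent.H36Top

namespace Pool.Agent.Results.MP_a18ae6_al.DualityN

/-- Let `G` be an automatic group which satisfies duality in dimension `m + 4` over the real numbers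
(for example a Poincaré duality group of dimension `m + 4`, orientable or not).

(1) The commutator subgroup of a nilpotent subgroup `H` of `G` meets every finitely generated
torsion-free nilpotent subgroup `K` of Hirsch length `m + 3` trivially. In particular (`H = K`) these
subgroups `K` are abelian.

(2) Let `H` be a nilpotent subgroup of `G` which is finitely generated or has a torsion-free subgroup of
finite index. If `m > 0` suppose moreover that `H` commutes elementwise with a free abelian subgroup of
rank `m + 1` of `G`. Then `H` is virtually abelian. -/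
theorem result (m : ℕ) (G : Type) [Group G] (hG : IsAutomatic G) (hd : Duality (m + 2) G) :
    (∀ K H : Subgroup G, HasSeries K (m + 3) → Group.IsNilpotent H →
      ∀ z ∈ K, z ∈ ⁅H, H⁆ → z = 1) ∧
    (∀ H : Subgroup G, Group.IsNilpotent H → Wide m H →
      (H.FG ∨ ∃ T : Subgroup G, T.relIndex H ≠ 0 ∧ ∀ g ∈ T, g ≠ 1 → ¬ IsOfFinOrder g) →
      ∃ A : Subgroup G, A ≤ H ∧ (A.subgroupOf H).index ≠ 0 ∧
        ∀ a ∈ A, ∀ b ∈ A, a * b = b * a) :=
  ⟨fun K H hK hH z hzK hzH => inter_trivial hG hd K H hK hH z hzK hzH,
    fun H hH hw h => virtually_abelian_of_no_hz m (fun Φ hΦ => no_fund (hzFund m) hG hd Φ hΦ)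
      H hw hH h⟩

end Pool.Agent.Results.MP_a18ae6_al.DualityN
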