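import Mathlib
import Pool.Agent.H9DimN.Dim
import Pool.Agent.H9Nil.Word

/-!
Nilpotent subgroups of automatic groups of finite real cohomological dimension.
-/

set_option autoImplicit false

open Pool.Agent.AutDim3 Pool.Agent.H9DimN Pool.Agent.H36Top Pool.Agent.H9Nil

namespace Pool.Agent.Results.MP_a18ae6_al.MaximalHirsch

/-- Let `G` be an automatic group of real cohomological dimension at most `n = m + 3`.

(1) Let `H` be a nilpotent subgroup of `G` which is finitely generated or has a torsion-free subgroup
of finite index. If `m > 0`, assume also that `H` has Hirsch length `n`, or that `H` commutes with a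
free abelian subgroup of `G` of rank `n - 2`. Then `H` is virtually abelian.

(2) A torsion-free nilpotent subgroup `K` of `G` of Hirsch length `n` and the commutator subgroup of
an arbitrary nilpotent subgroup `H` of `G` have trivial intersection. -/
theorem result (m : ℕ) (G : Type) [Group G] (hG : IsAutomatic G) (hd : DimLe (m + 3) G) :
    (∀ H : Subgroup G, Group.IsNilpotent H →
      (H.FG ∨ ∃ T : Subgroup G, T.relIndex H ≠ 0 ∧ ∀ g ∈ T, g ≠ 1 → ¬ IsOfFinOrder g) →
      Large m H →
      ∃ A : Subgroup G, A ≤ H ∧ (A.subgroupOf H).index ≠ 0 ∧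
        ∀ a ∈ A, ∀ b ∈ A, a * b = b * a) ∧
    (∀ K H : Subgroup G, HasSeries K (m + 3) → Group.IsNilpotent H → K ⊓ ⁅H, H⁆ = ⊥) := by
  refine ⟨fun H hH h hl => ?_, fun K H hK hH => ?_⟩
  · exact virtually_abelian_of_large m (fun Φ hΦ => no_fund (k := m + 2) (hzFund m) hG hd Φ hΦ)
      (fun N hN => rel_of_comm (comm_of_dim (k := m + 2) hG hd N hN)) H hl hH h
  · rw [eq_bot_iff]
    rintro z ⟨hzK, hzH⟩
    exact inter_dim (k := m + 2) hG hd K H hK hH z hzK hzH

end Pool.Agent.Results.MP_a18ae6_al.MaximalHirsch
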