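import Mathlib
import Pool.Agent.H9Nil.Classes

/-!
Cohomology classes of an automatic group with bounded coefficients restrict to sums of products of
classes of degree one on every finitely generated nilpotent group.
-/

set_option autoImplicit false

open Pool.Agent.AutDim3

namespace Pool.Agent.Results.MP_a18ae6_al.ProductClasses

/-- Let `G` be an automatic group, `φ` a homomorphism from a finitely generated nilpotent group `N` to
`G`, `V` a real representation of `G` with a `G`-invariant seminorm `p`, `lam` a linear functional on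
`V` which is bounded with respect to `p` and invariant under the image of `φ`, and `f` a homogeneous
cocycle of `G` of degree `k + 1` with values in `V`. Then the real cocycle `lam ∘ f ∘ φ` of `N` is the
sum of a linear combination of cup products of `k + 1` homomorphisms `N → ℝ` and of a coboundary; it
is a coboundary if the rank of the abelianisation of `N` is less than `k + 1`. -/
theorem result (G : Type) [Group G] (hG : IsAutomatic G) (N : Type) [Group N]
    [Group.IsNilpotent N] [Group.FG N] (φ : N →* G) (k : ℕ)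
    (V : Type) [AddCommGroup V] [Module ℝ V] (ρ : Representation ℝ G V)
    (p : Seminorm ℝ V) (hp : ∀ (g : G) (v : V), p (ρ g v) = p v)
    (lam : V →ₗ[ℝ] ℝ) (c : ℝ) (hc : ∀ v, |lam v| ≤ c * p v)
    (hlam : ∀ (n : N) (v : V), lam (ρ (φ n) v) = lam v)
    (f : (Fin (k + 2) → G) → V)
    (hf : ∀ (g : G) (σ : Fin (k + 2) → G), f (fun i => g * σ i) = ρ g (f σ))
    (hcl : ∀ τ : Fin (k + 3) → G,
      ∑ i : Fin (k + 3), (-1 : ℝ) ^ (i : ℕ) • f (fun j => τ (i.succAbove j)) = 0) :
    (∃ (χ : Fin (Module.finrank ℤ (Additive (Abelianization N))) → N → ℝ)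
      (a : (Fin (k + 1) → Fin (Module.finrank ℤ (Additive (Abelianization N)))) → ℝ)
      (h : (Fin (k + 1) → N) → ℝ),
      (∀ i x y, χ i (x * y) = χ i x + χ i y) ∧
      (∀ (n : N) (σ : Fin (k + 1) → N), h (fun i => n * σ i) = h σ) ∧
      ∀ σ : Fin (k + 2) → N, lam (f (fun i => φ (σ i))) =
        ∑ s, a s * ∏ j : Fin (k + 1), χ (s j) ((σ j.castSucc)⁻¹ * σ j.succ) +
          ∑ i : Fin (k + 2), (-1 : ℝ) ^ (i : ℕ) * h (fun j => σ (i.succAbove j))) ∧
    (Module.finrank ℤ (Additive (Abelianization N)) < k + 1 →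
      ∃ h : (Fin (k + 1) → N) → ℝ,
        (∀ (n : N) (σ : Fin (k + 1) → N), h (fun i => n * σ i) = h σ) ∧
        ∀ σ : Fin (k + 2) → N, lam (f (fun i => φ (σ i))) =
          ∑ i : Fin (k + 2), (-1 : ℝ) ^ (i : ℕ) * h (fun j => σ (i.succAbove j))) := by
  refine Pool.Agent.H9Nil.classes hG φ (fun σ => lam (f σ)) ?_ (fun σ => c * p (f σ)) ?_ ?_ ?_
  · intro n σ
    show lam (f fun i => φ n * σ i) = lam (f σ)
    rw [hf, hlam]
  · intro g σ
    show c * p (f fun i => g * σ i) = c * p (f σ)
    rw [hf, hp]
  · intro σ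
    exact hc _
  · intro τ
    have h1 := congrArg lam (hcl τ)
    rw [map_sum, map_zero] at h1
    rw [← h1]
    exact Finset.sum_congr rfl fun i _ => by rw [map_smul, smul_eq_mul]

end Pool.Agent.Results.MP_a18ae6_al.ProductClasses
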