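import Mathlib
import Pool.Agent.H9Act.Comm

/-!
Nilpotent subgroups of automatic groups that act properly on a thin complex.
-/

set_option autoImplicit false

open Pool.Agent.AutDim3 Pool.Agent.H9DimN Pool.Agent.H36Top Pool.Agent.H9Nil Pool.Agent.H9Act

namespace Pool.Agent.Results.MP_a18ae6_al.ProperActions

/-- Let `G` be an automatic group with a subgroup `G₁` of finite index that has a thin action in
dimension `n = m + 3` (for example, an action by simplicial automorphisms, with arbitrary
stabilisers, on a contractible triangulated manifold of dimension `m + 4` or on a contractible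
simplicial complex of dimension `m + 3`).

(1) Let `P` be a subgroup of `G` that acts properly, and `H` a nilpotent subgroup of `P` which is
finitely generated or has a torsion-free subgroup of finite index. If `m > 0`, assume also that `H`
has Hirsch length `n`, or that `H` commutes with a free abelian subgroup of `P` of rank `n - 2`.
Then `H` is virtually abelian.

(2) A torsion-free nilpotent subgroup `K` of `G` of Hirsch length `n` that acts properly and the
commutator subgroup of an arbitrary nilpotent subgroup `H` of `G` have trivial intersection. -/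
theorem result (m : ℕ) (G : Type) [Group G] (hG : IsAutomatic G) (G₁ : Subgroup G)
    (hi : G₁.index ≠ 0) (T : ThinAction (m + 3) G₁) :
    (∀ P : Subgroup G, T.Proper P → ∀ H : Subgroup P, Group.IsNilpotent H →
      (H.FG ∨ ∃ V : Subgroup P, V.relIndex H ≠ 0 ∧ ∀ g ∈ V, g ≠ 1 → ¬ IsOfFinOrder g) →
      Large m H →
      ∃ A : Subgroup P, A ≤ H ∧ (A.subgroupOf H).index ≠ 0 ∧
        ∀ a ∈ A, ∀ b ∈ A, a * b = b * a) ∧
    (∀ K H : Subgroup G, HasSeries K (m + 3) → T.Proper K → Group.IsNilpotent H →
      K ⊓ ⁅H, H⁆ = ⊥) := by
  refine ⟨fun P hP H hH h hl => ?_, fun K H hK hp hH => ?_⟩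
  · refine virtually_abelian_of_large m (fun Φ hΦ => ?_) (fun N hN => ?_) H hl hH h
    · refine no_hz_act m hG G₁ hi T (P.subtype.comp Φ) (P.subtype_injective.comp hΦ) (hP.mono ?_)
      rintro _ ⟨x, rfl⟩
      exact (Φ x).2
    · obtain ⟨A, hA, hc⟩ := comm_of_act (k := m + 2) hG G₁ hi T (P.subtype.comp N.subtype)
        (P.subtype_injective.comp N.subtype_injective) (hP.mono (by
          rintro _ ⟨x, rfl⟩
          exact x.1.2)) hN
      refine ⟨A.map N.subtype, Subgroup.map_subtype_le A, ?_, ?_⟩
      · rw [Subgroup.relIndex, Subgroup.subgroupOf,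
          Subgroup.comap_map_eq_self_of_injective N.subtype_injective]
        exact hA
      · rintro _ ⟨a, ha, rfl⟩ _ ⟨b, hb, rfl⟩
        exact congrArg N.subtype (hc a ha b hb)
  · rw [eq_bot_iff]
    rintro z ⟨hzK, hzH⟩
    exact inter_act (k := m + 2) hG G₁ hi T K H hp hK hH z hzK hzH

end Pool.Agent.Results.MP_a18ae6_al.ProperActions
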